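import Mathlib
import Pool.Agent.Y268.D3.Stm2

/-!
D3-SIDES: the two sides, from the core mean.
-/

set_option autoImplicit false

open scoped ComplexOrder InnerProductSpace ComplexConjugate Topology
open Finset Filter

noncomputable section

namespace Y657.D3

open H759R2.Kad H711R2.KG Y268.D3

/-! ### The signed permutations -/

/-- Index set of the eight signed permutations. -/
abbrev Gm : Type := Bool × Bool × Bool

/-- The signed permutation matrices with integer entries. -/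
def Sz (i : Gm) : Matrix (Fin 2) (Fin 2) ℤ :=
  (if i.1 then -1 else 1 : ℤ) • ((if i.2.1 then !![1, 0; 0, -1] else 1) *
    (if i.2.2 then !![0, 1; 1, 0] else 1))

/-- Multiplication of the indices. -/
def mG (i j : Gm) : Gm :=
  (xor (xor i.1 j.1) (i.2.2 && j.2.1), xor i.2.1 j.2.1, xor i.2.2 j.2.2)

/-- Inversion of the indices. -/
def iG (i : Gm) : Gm := (xor i.1 (i.2.1 && i.2.2), i.2.1, i.2.2)

theorem Sz_mul : ∀ i j : Gm, Sz (mG i j) = Sz i * Sz j := by decide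

theorem Sz_inv : ∀ i : Gm, Sz (iG i) = (Sz i).transpose := by decide

theorem Sz_one : ∀ i : Gm, Sz (mG i (iG i)) = 1 ∧ Sz (mG (iG i) i) = 1 := by decide

theorem mG_bijr : ∀ j : Gm, Function.Bijective (fun i => mG i j) := by decide

theorem mG_bijl : ∀ j : Gm, Function.Bijective (fun i => mG j i) := by decide

theorem iG_bij : Function.Bijective iG := by decide

section tens

variable {N : Type} [CStarAlgebra N]

theorem tens_mul1 (s s' : Matrix (Fin 2) (Fin 2) ℂ) :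
    (tens (s * s') 1 : CStarMatrix (Fin 2) (Fin 2) N) = tens s 1 * tens s' 1 := by
  ext i j
  rw [CStarMatrix.mul_apply]
  simp only [tens, CStarMatrix.ofMatrix_apply, Matrix.mul_apply, Finset.sum_smul]
  refine Finset.sum_congr rfl fun k _ => ?_
  rw [smul_mul_smul_comm, mul_one]

theorem tens_star1 (s : Matrix (Fin 2) (Fin 2) ℂ) :
    star (tens s 1 : CStarMatrix (Fin 2) (Fin 2) N) = tens (s.conjTranspose) 1 := by
  ext i j
  rw [CStarMatrix.star_apply]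
  simp only [tens, CStarMatrix.ofMatrix_apply, Matrix.conjTranspose_apply, star_smul, star_one]

theorem tens_one1 : (tens (1 : Matrix (Fin 2) (Fin 2) ℂ) 1 : CStarMatrix (Fin 2) (Fin 2) N) = 1 := by
  ext i j
  rw [CStarMatrix.one_apply]
  simp only [tens, CStarMatrix.ofMatrix_apply, Matrix.one_apply]
  split_ifs <;> simp

/-- The signed permutations over the algebra. -/
def gA (N : Type) [CStarAlgebra N] (i : Gm) : CStarMatrix (Fin 2) (Fin 2) N :=
  tens ((Sz i).map (Int.castRingHom ℂ)) 1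

theorem gA_mul (i j : Gm) : gA N (mG i j) = gA N i * gA N j := by
  unfold gA
  rw [Sz_mul, Matrix.map_mul, tens_mul1]

theorem gA_star (i : Gm) : gA N (iG i) = star (gA N i) := by
  unfold gA
  rw [tens_star1, Sz_inv]
  congr 1
  ext a b
  simp

theorem gA_one (i : Gm) : gA N (mG i (iG i)) = 1 ∧ gA N (mG (iG i) i) = 1 := by
  unfold gA
  rw [(Sz_one i).1, (Sz_one i).2, Matrix.map_one _ (map_zero _) (map_one _), tens_one1]
  exact ⟨rfl, rfl⟩

theorem gA_D : gA N (false, true, false) = mD N := by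
  unfold gA mD
  congr 1
  ext a b
  fin_cases a <;> fin_cases b <;> simp [Sz]

theorem gA_P : gA N (false, false, true) = mP N := by
  unfold gA mP
  congr 1
  ext a b
  fin_cases a <;> fin_cases b <;> simp [Sz]

end tens

section side

variable {N : Type} [CStarAlgebra N] [PartialOrder N] [StarOrderedRing N]

/-- The signed permutations as unitaries. -/
def gU (N : Type) [CStarAlgebra N] [PartialOrder N] [StarOrderedRing N] (i : Gm) :
    unitary (CStarMatrix (Fin 2) (Fin 2) N) :=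
  ⟨gA N i, by
    rw [Unitary.mem_iff, ← gA_star, ← gA_mul, ← gA_mul]
    exact ⟨(gA_one i).2, (gA_one i).1⟩⟩

theorem isGrp : IsGrp (gU N) where
  right h := ⟨Equiv.ofBijective _ (mG_bijr h), fun i => Subtype.ext (gA_mul i h)⟩
  left h := ⟨Equiv.ofBijective _ (mG_bijl h), fun i => Subtype.ext (gA_mul h i)⟩
  inv := ⟨Equiv.ofBijective _ iG_bij, fun i => Subtype.ext (gA_star i)⟩

variable {K : Type} [NormedAddCommGroup K] [InnerProductSpace ℂ K]

theorem form_add_left {q : Form K} {C : ℝ} (hq : IsForm q C) (ξ ξ' η : K) :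
    q (ξ + ξ') η = q ξ η + q ξ' η := by
  rw [hq.herm η (ξ + ξ'), hq.add, map_add, ← hq.herm, ← hq.herm]

theorem form_smul_left {q : Form K} {C : ℝ} (hq : IsForm q C) (c : ℂ) (ξ η : K) :
    q (c • ξ) η = conj c * q ξ η := by
  rw [hq.herm η (c • ξ), hq.smul, map_mul, ← hq.herm]

/-- The vectors of the polarisation. -/
def zv (k : Fin 4) (ζ ζ' : K) : K := (Complex.I ^ (k : ℕ)) • ζ + ζ'

theorem norm_zv_le (k : Fin 4) (ζ ζ' : K) : ‖zv k ζ ζ'‖ ≤ ‖ζ‖ + ‖ζ'‖ := by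
  unfold zv
  refine (norm_add_le _ _).trans ?_
  rw [norm_smul, norm_pow, Complex.norm_I, one_pow, one_mul]

theorem polar {q : Form K} {C : ℝ} (hq : IsForm q C) (S T : K →L[ℂ] K) (ζ ζ' : K) :
    q (S ζ) (T ζ') = (1 / 4) * ∑ k : Fin 4, Complex.I ^ (k : ℕ) *
      q (S (zv k ζ ζ')) (T (zv k ζ ζ')) := by
  have h : ∀ a : ℂ, q (S (a • ζ + ζ')) (T (a • ζ + ζ')) =
      conj a * (a * q (S ζ) (T ζ)) + conj a * q (S ζ) (T ζ') +
        (a * q (S ζ') (T ζ) + q (S ζ') (T ζ')) := by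
    intro a
    rw [map_add, map_add, map_smul, map_smul, form_add_left hq, hq.add, hq.add,
      form_smul_left hq, form_smul_left hq, hq.smul, hq.smul]
  unfold zv
  simp only [h, Fin.sum_univ_four, map_pow, Complex.conj_I]
  have e0 : ((0 : Fin 4) : ℕ) = 0 := rfl
  have e1 : ((1 : Fin 4) : ℕ) = 1 := rfl
  have e2 : ((2 : Fin 4) : ℕ) = 2 := rfl
  have e3 : ((3 : Fin 4) : ℕ) = 3 := rfl
  rw [e0, e1, e2, e3]
  have i2 : Complex.I ^ 2 = -1 := Complex.I_sq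
  have i3 : Complex.I ^ 3 = -Complex.I := by rw [pow_succ, i2]; ring
  have j2 : (-Complex.I) ^ 2 = -1 := by rw [neg_sq, i2]
  have j3 : (-Complex.I) ^ 3 = Complex.I := by rw [pow_succ, j2]; ring
  rw [i2, i3, j2, j3]
  generalize q (S ζ) (T ζ) = u1
  generalize q (S ζ) (T ζ') = u2
  generalize q (S ζ') (T ζ) = u3
  generalize q (S ζ') (T ζ') = u4
  simp only [pow_zero, pow_one]
  linear_combination (1 / 4 : ℂ) * (Complex.I * u1 - Complex.I * u1 + 2 * u2 - 2 * u3) *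
    (Complex.I_sq)

variable [CompleteSpace K]

/-- The diagonal case. -/
theorem diag_of (hreal : S_real) (hiso : S_isoM) (τ : N →ₗ[ℂ] ℂ) (hτ : IsTracialState τ)
    (E : Mean (unitary N)) (hE : DixMean τ E)
    (W : CStarMatrix (Fin 2) (Fin 2) N →ₗ[ℂ] (K →L[ℂ] K)) (hW : IsHom W) (γ : ℝ) (hγ : 0 ≤ γ)
    (hWb : ∀ b, ‖W b‖ ≤ γ * ‖b‖) (q : Form K) (hq : IsForm q (6 * γ ^ 2))
    (Ec : Mean (unitary (CStarMatrix (Fin 2) (Fin 2) N)))
    (hD : act W (mD N) q = q) (hP : act W (mP N) q = q)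
    (hK : ∀ (V : unitary (CStarMatrix (Fin 2) (Fin 2) N)) (ζ ζ' : K),
      Ec.E (fun c => q (W ((V : CStarMatrix (Fin 2) (Fin 2) N) * (c : CStarMatrix (Fin 2) (Fin 2) N)) ζ)
        (W ((V : CStarMatrix (Fin 2) (Fin 2) N) * (c : CStarMatrix (Fin 2) (Fin 2) N)) ζ')) = q ζ ζ')
    (hiD : ∀ φ : unitary (CStarMatrix (Fin 2) (Fin 2) N) → ℂ,
      Ec.E (fun c => φ (gU N (false, true, false) * c)) = Ec.E φ)
    (hiP : ∀ φ : unitary (CStarMatrix (Fin 2) (Fin 2) N) → ℂ,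
      Ec.E (fun c => φ (gU N (false, false, true) * c)) = Ec.E φ)
    (R : ℝ) (z : K) (hz : ‖z‖ ≤ R) :
    ∃ ρ ρ' : CStarMatrix (Fin 2) (Fin 2) N →L[ℂ] ℂ, ‖ρ‖ ≤ 4 * (6 * γ ^ 2 * γ ^ 2 * R ^ 2) ∧
      ‖ρ'‖ ≤ 4 * (6 * γ ^ 2 * γ ^ 2 * R ^ 2) ∧ ρ 1 + ρ' 1 = q z z ∧
      ∀ y y' : CStarMatrix (Fin 2) (Fin 2) N,
        Ec.E (fun g => q (W (y * (g : CStarMatrix (Fin 2) (Fin 2) N)) z) (W (y' * (g : CStarMatrix (Fin 2) (Fin 2) N)) z)) =
          ρ (star y * y') + ρ' (y' * star y) := by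
  have hR : 0 ≤ R := (norm_nonneg z).trans hz
  have hb1 : ∀ (x : CStarMatrix (Fin 2) (Fin 2) N)
      (g : unitary (CStarMatrix (Fin 2) (Fin 2) N)), ‖W (x * (g : CStarMatrix (Fin 2) (Fin 2) N)) z‖ ≤ γ * ‖x‖ * R := by
    intro x g
    refine ((W (x * (g : CStarMatrix (Fin 2) (Fin 2) N))).le_opNorm z).trans ?_
    refine mul_le_mul ?_ hz (norm_nonneg _) (by positivity)
    refine (hWb _).trans (le_of_eq ?_)
    rw [CStarRing.norm_mul_coe_unitary]
  have hbd : ∀ (x y : CStarMatrix (Fin 2) (Fin 2) N)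
      (g : unitary (CStarMatrix (Fin 2) (Fin 2) N)),
      ‖q (W (x * (g : CStarMatrix (Fin 2) (Fin 2) N)) z) (W (y * (g : CStarMatrix (Fin 2) (Fin 2) N)) z)‖ ≤ 6 * γ ^ 2 * γ ^ 2 * R ^ 2 * ‖x‖ * ‖y‖ := by
    intro x y g
    refine (hq.bd _ _).trans ?_
    calc 6 * γ ^ 2 * ‖W (x * (g : CStarMatrix (Fin 2) (Fin 2) N)) z‖ * ‖W (y * (g : CStarMatrix (Fin 2) (Fin 2) N)) z‖
        ≤ 6 * γ ^ 2 * (γ * ‖x‖ * R) * (γ * ‖y‖ * R) := by
          refine mul_le_mul ?_ (hb1 y g) (norm_nonneg _) (by positivity)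
          exact mul_le_mul_of_nonneg_left (hb1 x g) (by positivity)
      _ = _ := by ring
  set f : CStarMatrix (Fin 2) (Fin 2) N → CStarMatrix (Fin 2) (Fin 2) N → ℂ :=
    fun y y' => Ec.E (fun g => q (W (y * (g : CStarMatrix (Fin 2) (Fin 2) N)) z) (W (y' * (g : CStarMatrix (Fin 2) (Fin 2) N)) z)) with hf
  have hfB : IsFormB f (6 * γ ^ 2 * γ ^ 2 * R ^ 2) := by
    constructor
    · intro x y y'
      rw [hf]
      dsimp only
      rw [← Ec.add']
      congr 1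
      ext g
      rw [add_mul, map_add, add_apply, hq.add]
    · intro c x y
      rw [hf]
      dsimp only
      rw [← Ec.const_mul]
      congr 1
      ext g
      rw [smul_mul_assoc, map_smul, smul_apply, hq.smul]
    · intro x y
      rw [hf]
      dsimp only
      rw [← ((hreal _ Ec).2 (fun g => q (W (x * (g : CStarMatrix (Fin 2) (Fin 2) N)) z) (W (y * (g : CStarMatrix (Fin 2) (Fin 2) N)) z)) _
        (hbd x y)).1]
      congr 1
      ext g
      exact hq.herm _ _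
    · intro x
      rw [hf]
      dsimp only
      have h1 : (fun g : unitary (CStarMatrix (Fin 2) (Fin 2) N) =>
          q (W (x * (g : CStarMatrix (Fin 2) (Fin 2) N)) z) (W (x * (g : CStarMatrix (Fin 2) (Fin 2) N)) z)) =
          fun g : unitary (CStarMatrix (Fin 2) (Fin 2) N) => (((q (W (x * (g : CStarMatrix (Fin 2) (Fin 2) N)) z) (W (x * (g : CStarMatrix (Fin 2) (Fin 2) N)) z)).re : ℝ) : ℂ) := by
        ext g
        exact (Complex.conj_eq_iff_re.mp (hq.herm _ _).symm).symm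
      rw [h1]
      refine ((hreal _ Ec).1 (fun g => (q (W (x * (g : CStarMatrix (Fin 2) (Fin 2) N)) z) (W (x * (g : CStarMatrix (Fin 2) (Fin 2) N)) z)).re) _
        (fun g => (Complex.abs_re_le_norm _).trans (hbd x x g))).2 fun g => hq.pos _
    · intro x y
      exact Ec.bd _ _ (hbd x y)
  have hleft : ∀ (m : CStarMatrix (Fin 2) (Fin 2) N), act W m q = q → ∀ y y',
      f (m * y) (m * y') = f y y' := by
    intro m hm y y'
    rw [hf]
    dsimp only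
    congr 1
    ext g
    have h1 := congrFun (congrFun hm (W (y * (g : CStarMatrix (Fin 2) (Fin 2) N)) z)) (W (y' * (g : CStarMatrix (Fin 2) (Fin 2) N)) z)
    rw [← h1]
    unfold act
    rw [mul_assoc m y, mul_assoc m y', hW.mul m, hW.mul m]
    rfl
  have hright : ∀ (m : unitary (CStarMatrix (Fin 2) (Fin 2) N)),
      (∀ φ : unitary (CStarMatrix (Fin 2) (Fin 2) N) → ℂ,
        Ec.E (fun c => φ (m * c)) = Ec.E φ) → ∀ y y',
      f (y * (m : CStarMatrix (Fin 2) (Fin 2) N)) (y' * (m : CStarMatrix (Fin 2) (Fin 2) N)) = f y y' := by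
    intro m hm y y'
    rw [hf]
    dsimp only
    rw [← hm (fun c => q (W (y * (c : CStarMatrix (Fin 2) (Fin 2) N)) z) (W (y' * (c : CStarMatrix (Fin 2) (Fin 2) N)) z))]
    congr 1
    ext g
    rw [mul_assoc, mul_assoc]
    rfl
  refine hiso N τ hτ E hE f _ hfB (q z z) (fun V hV => hK ⟨V, hV⟩ z z) fun y y' => ?_
  refine ⟨hleft _ hD y y', hleft _ hP y y', ?_, ?_⟩
  · have := hright _ hiD y y'
    rw [← gA_D]
    exact this
  · have := hright _ hiP y y'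
    rw [← gA_P]
    exact this

/-- The structure of one side. -/
theorem st_of (hreal : S_real) (hiso : S_isoM) (τ : N →ₗ[ℂ] ℂ) (hτ : IsTracialState τ)
    (E : Mean (unitary N)) (hE : DixMean τ E)
    (W : CStarMatrix (Fin 2) (Fin 2) N →ₗ[ℂ] (K →L[ℂ] K)) (hW : IsHom W) (γ : ℝ) (hγ : 0 ≤ γ)
    (hWb : ∀ b, ‖W b‖ ≤ γ * ‖b‖) (q : Form K) (hq : IsForm q (6 * γ ^ 2))
    (Ec : Mean (unitary (CStarMatrix (Fin 2) (Fin 2) N)))
    (hD : act W (mD N) q = q) (hP : act W (mP N) q = q)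
    (hK : ∀ (V : unitary (CStarMatrix (Fin 2) (Fin 2) N)) (ζ ζ' : K),
      Ec.E (fun c => q (W ((V : CStarMatrix (Fin 2) (Fin 2) N) * (c : CStarMatrix (Fin 2) (Fin 2) N)) ζ)
        (W ((V : CStarMatrix (Fin 2) (Fin 2) N) * (c : CStarMatrix (Fin 2) (Fin 2) N)) ζ')) = q ζ ζ')
    (hiD : ∀ φ : unitary (CStarMatrix (Fin 2) (Fin 2) N) → ℂ,
      Ec.E (fun c => φ (gU N (false, true, false) * c)) = Ec.E φ)
    (hiP : ∀ φ : unitary (CStarMatrix (Fin 2) (Fin 2) N) → ℂ,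
      Ec.E (fun c => φ (gU N (false, false, true) * c)) = Ec.E φ) :
    ∀ R : ℝ, ∃ C : ℝ, ∀ ζ ζ' : K, ‖ζ‖ ≤ R → ‖ζ'‖ ≤ R →
      ∃ ρ ρ' : CStarMatrix (Fin 2) (Fin 2) N →L[ℂ] ℂ,
      ‖ρ‖ ≤ C ∧ ‖ρ'‖ ≤ C ∧ ρ 1 + ρ' 1 = q ζ ζ' ∧
      ∀ y y' : CStarMatrix (Fin 2) (Fin 2) N,
        Ec.E (fun g => q (W (y * (g : CStarMatrix (Fin 2) (Fin 2) N)) ζ) (W (y' * (g : CStarMatrix (Fin 2) (Fin 2) N)) ζ')) =
          ρ (star y * y') + ρ' (y' * star y) := by
  intro R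
  refine ⟨4 * (6 * γ ^ 2 * γ ^ 2 * (R + R) ^ 2), fun ζ ζ' hζ hζ' => ?_⟩
  have hz : ∀ k, ‖zv k ζ ζ'‖ ≤ R + R := fun k => (norm_zv_le k ζ ζ').trans (add_le_add hζ hζ')
  choose ρ ρ' h1 h2 h3 h4 using fun k : Fin 4 =>
    diag_of hreal hiso τ hτ E hE W hW γ hγ hWb q hq Ec hD hP hK hiD hiP (R + R) (zv k ζ ζ') (hz k)
  have hn : ∀ r : Fin 4 → (CStarMatrix (Fin 2) (Fin 2) N →L[ℂ] ℂ),
      (∀ k, ‖r k‖ ≤ 4 * (6 * γ ^ 2 * γ ^ 2 * (R + R) ^ 2)) →
      ‖(1 / 4 : ℂ) • ∑ k : Fin 4, Complex.I ^ (k : ℕ) • r k‖ ≤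
        4 * (6 * γ ^ 2 * γ ^ 2 * (R + R) ^ 2) := by
    intro r hr
    rw [norm_smul]
    have e1 : ‖(1 / 4 : ℂ)‖ = 1 / 4 := by norm_num
    rw [e1]
    have e2 : ‖∑ k : Fin 4, Complex.I ^ (k : ℕ) • r k‖ ≤
        ∑ _k : Fin 4, 4 * (6 * γ ^ 2 * γ ^ 2 * (R + R) ^ 2) := by
      refine norm_sum_le_of_le _ fun k _ => ?_
      rw [norm_smul, norm_pow, Complex.norm_I, one_pow, one_mul]
      exact hr k
    rw [Finset.sum_const, Finset.card_univ, Fintype.card_fin, nsmul_eq_mul] at e2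
    push_cast at e2
    linarith
  refine ⟨(1 / 4 : ℂ) • ∑ k : Fin 4, Complex.I ^ (k : ℕ) • ρ k,
    (1 / 4 : ℂ) • ∑ k : Fin 4, Complex.I ^ (k : ℕ) • ρ' k, hn ρ h1, hn ρ' h2, ?_, ?_⟩
  · have h5 := polar hq (ContinuousLinearMap.id ℂ K) (ContinuousLinearMap.id ℂ K) ζ ζ'
    simp only [ContinuousLinearMap.id_apply] at h5
    rw [h5]
    simp only [smul_apply, _root_.sum_apply, smul_eq_mul]
    rw [← mul_add, ← Finset.sum_add_distrib]
    congr 1
    refine Finset.sum_congr rfl fun k _ => ?_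
    rw [← mul_add, h3]
  · intro y y'
    have h5 : (fun g : unitary (CStarMatrix (Fin 2) (Fin 2) N) =>
        q (W (y * (g : CStarMatrix (Fin 2) (Fin 2) N)) ζ) (W (y' * (g : CStarMatrix (Fin 2) (Fin 2) N)) ζ')) =
        fun g : unitary (CStarMatrix (Fin 2) (Fin 2) N) => (1 / 4) * ∑ k : Fin 4, Complex.I ^ (k : ℕ) *
          q (W (y * (g : CStarMatrix (Fin 2) (Fin 2) N)) (zv k ζ ζ')) (W (y' * (g : CStarMatrix (Fin 2) (Fin 2) N)) (zv k ζ ζ')) := by
      ext g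
      exact polar hq _ _ ζ ζ'
    rw [h5, Ec.const_mul, Ec.sum']
    simp only [smul_apply, _root_.sum_apply, smul_eq_mul]
    rw [← mul_add, ← Finset.sum_add_distrib]
    congr 1
    refine Finset.sum_congr rfl fun k _ => ?_
    rw [Ec.const_mul, h4, mul_add]

end side

theorem prove_sides : S_real → S_cb → S_dixform → S_core → S_dixmean → S_isoM → S_M2 →
    S_sides := by
  intro hreal hcb hdf hcore hdm hiso hM2 N _ _ _ τ hτ hdix horth K _ _ _ w hw γ hγ hwb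
  obtain ⟨ht, htd, hto⟩ := hM2 N τ hτ hdix horth
  obtain ⟨E, hE⟩ := hdm N τ hτ hdix horth
  obtain ⟨q₁, q₂, E₁, E₂, Ec, hq1, hq2, hE1, hE2, hc1, hc2, hg1, hg2, hk1, hk2, hinv⟩ :=
    hcore (CStarMatrix (Fin 2) (Fin 2) N) (ntr τ (Fin 2)) ht htd hto K w hw γ hγ hwb Gm (gU N)
      isGrp
  have hvb : ∀ b, ‖vmap w b‖ ≤ γ * ‖b‖ := by
    intro b
    rw [norm_vmap, ← norm_star b]
    exact hwb _
  have hF1 : IsForm q₁ (6 * γ ^ 2) := (hcb _ K (vmap w) hw.vmap γ hγ hvb).2.2.2.1 q₁ hq1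
  have hF2 : IsForm q₂ (6 * γ ^ 2) := (hcb _ K w hw γ hγ hwb).2.2.2.1 q₂ hq2
  have hD1 : act (vmap w) (mD N) q₁ = q₁ := by
    have := hg1 (false, true, false)
    rw [← gA_D]
    exact this
  have hP1 : act (vmap w) (mP N) q₁ = q₁ := by
    have := hg1 (false, false, true)
    rw [← gA_P]
    exact this
  have hD2 : act w (mD N) q₂ = q₂ := by
    have := hg2 (false, true, false)
    rw [← gA_D]
    exact this
  have hP2 : act w (mP N) q₂ = q₂ := by
    have := hg2 (false, false, true)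
    rw [← gA_P]
    exact this
  have hstar : ∀ i : Gm, iG i = i → ∀ φ : unitary (CStarMatrix (Fin 2) (Fin 2) N) → ℂ,
      (Ec.map star).E (fun c => φ (gU N i * c)) = (Ec.map star).E φ := by
    intro i hi φ
    rw [Mean.map_E, Mean.map_E]
    have hs : star (gU N i) = gU N i := by
      apply Subtype.ext
      change star (gA N i) = gA N i
      rw [← gA_star, hi]
    have h1 := (hinv i (fun c => φ (star c))).2
    rw [← h1]
    congr 1
    ext c
    rw [star_mul, hs]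
  refine ⟨q₁, q₂, E₁, E₂, Ec, hq1, hq2,
    hdf _ _ ht K (vmap w) hw.vmap γ hγ hvb E₁ hE1 q₁ hq1 hc1,
    hdf _ _ ht K w hw γ hγ hwb E₂ hE2 q₂ hq2 hc2, ?_, ?_, hD1, hP1, hD2, hP2⟩
  · exact ⟨⟨_, hF1⟩, hE1, hE2, hc1,
      st_of hreal hiso τ hτ E hE (vmap w) hw.vmap γ hγ hvb q₁ hF1 Ec hD1 hP1 hk1
        (fun φ => (hinv _ φ).1) (fun φ => (hinv _ φ).1)⟩
  · exact ⟨⟨_, hF2⟩, hE2, hE1, hc2,
      st_of hreal hiso τ hτ E hE w hw γ hγ hwb q₂ hF2 (Ec.map star) hD2 hP2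
        (fun V ζ ζ' => hk2 V ζ ζ')
        (hstar _ rfl) (hstar _ rfl)⟩

end Y657.D3
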